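import Pool.Agent.H94.IC.Targets1

/-!
# Insulating cracks: modules RMV and RMG (helper4)
-/

open MeasureTheory Set Filter Topology Metric
open scoped ENNReal NNReal ContDiff RealInnerProductSpace

namespace Pool.Agent.H4.IC

open Pool.Agent.H94.IC

/-! ## coordinates -/

lemma T_pt (T : E ≃ₗᵢ[ℝ] E) (p : E) (a : ℝ × ℝ) (t : ℝ) :
    T (pt T p a t - p) = !₂[a.1, a.2, t] := by
  unfold pt
  rw [add_sub_cancel_left, LinearIsometryEquiv.apply_symm_apply]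

lemma pt_coord (T : E ≃ₗᵢ[ℝ] E) (p x : E) :
    pt T p ((T (x - p)) 0, (T (x - p)) 1) ((T (x - p)) 2) = x := by
  unfold pt
  have h1 : (!₂[(T (x - p)) 0, (T (x - p)) 1, (T (x - p)) 2] : E) = T (x - p) := by
    ext i
    fin_cases i <;> rfl
  rw [h1, LinearIsometryEquiv.symm_apply_apply]
  abel

lemma pt_cont (T : E ≃ₗᵢ[ℝ] E) (p : E) : Continuous (fun q : (ℝ × ℝ) × ℝ => pt T p q.1 q.2) := by
  unfold pt
  refine continuous_const.add (T.symm.continuous.comp ?_)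
  refine (PiLp.continuous_toLp 2 _).comp ?_
  refine continuous_pi fun i => ?_
  fin_cases i
  · exact continuous_fst.fst
  · exact continuous_fst.snd
  · exact continuous_snd

lemma pt_mem_Bx (T : E ≃ₗᵢ[ℝ] E) (p : E) {r h : ℝ} {a : ℝ × ℝ} {t : ℝ} :
    pt T p a t ∈ Bx T p r h ↔ a ∈ Sq r ∧ t ∈ Ioo (-h) h := by
  unfold Bx Sq
  rw [mem_ofPred_eq, T_pt]
  simp only [mem_ofPred_eq, mem_Ioo, ← abs_lt]
  exact and_assoc.symm

lemma mem_Bx_coord {T : E ≃ₗᵢ[ℝ] E} {p x : E} {r h : ℝ} (hx : x ∈ Bx T p r h) :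
    ∃ a ∈ Sq r, ∃ t ∈ Ioo (-h) h, x = pt T p a t :=
  ⟨((T (x - p)) 0, (T (x - p)) 1), ⟨hx.1, hx.2.1⟩, (T (x - p)) 2, abs_lt.1 hx.2.2,
    (pt_coord T p x).symm⟩

lemma Bx_open (T : E ≃ₗᵢ[ℝ] E) (p : E) (r h : ℝ) : IsOpen (Bx T p r h) := by
  have hc : ∀ i : Fin 3, Continuous fun x : E => |(T (x - p)) i| := by
    intro i
    refine continuous_abs.comp ?_
    exact (EuclideanSpace.proj i).continuous.comp
      (T.continuous.comp (continuous_id.sub continuous_const))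
  have h0 : IsOpen {x : E | |(T (x - p)) 0| < r} := isOpen_lt (hc 0) continuous_const
  have h1 : IsOpen {x : E | |(T (x - p)) 1| < r} := isOpen_lt (hc 1) continuous_const
  have h2 : IsOpen {x : E | |(T (x - p)) 2| < h} := isOpen_lt (hc 2) continuous_const
  exact h0.inter (h1.inter h2)

lemma self_mem_Bx (T : E ≃ₗᵢ[ℝ] E) (p : E) {r h : ℝ} (hr : 0 < r) (hh : 0 < h) :
    p ∈ Bx T p r h := by
  unfold Bx
  rw [mem_ofPred_eq, sub_self, map_zero]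
  simpa using ⟨hr, hh⟩

lemma Sq_convex (r : ℝ) : Convex ℝ (Sq r) := by
  have h1 : Sq r = Ioo (-r) r ×ˢ Ioo (-r) r := by
    ext a
    unfold Sq
    simp only [mem_ofPred_eq, mem_prod, mem_Ioo, ← abs_lt]
  rw [h1]
  exact (convex_Ioo _ _).prod (convex_Ioo _ _)

/-! ## gluing constants -/

lemma glue_const {X C : Type} [TopologicalSpace X] {L D : Set X} (hL : IsPreconnected L)
    (f : X → C) (hC : Nonempty C) (h1 : ∀ x ∈ L, ∃ c, ∀ᶠ y in 𝓝[L] x, y ∈ D → f y = c)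
    (h2 : ∀ x ∈ L, ∃ᶠ y in 𝓝[L] x, y ∈ D) : ∃ c, ∀ y ∈ L, y ∈ D → f y = c := by
  classical
  rcases L.eq_empty_or_nonempty with rfl | ⟨x0, hx0⟩
  · exact ⟨hC.some, fun y hy => absurd hy (notMem_empty y)⟩
  choose! k hk using h1
  have h3 : ∀ x ∈ L, ∀ᶠ y in 𝓝[L] x, k x = k y := by
    intro x hx
    have h4 : ∀ᶠ y in 𝓝[L] x, ∀ᶠ z in 𝓝[L] y, z ∈ D → f z = k x :=
      eventually_eventually_nhdsWithin.2 (hk x hx)
    filter_upwards [h4, self_mem_nhdsWithin] with y hy hyL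
    obtain ⟨z, hz, hz1, hz2⟩ := ((h2 y hyL).and_eventually (hy.and (hk y hyL))).exists
    rw [← hz1 hz, ← hz2 hz]
  have h5 : ∀ x ∈ L, ∀ y ∈ L, k x = k y := by
    intro x hx y hy
    exact hL.induction₂ (fun x y => k x = k y) h3 (fun _ _ _ _ _ _ h h' => h.trans h')
      (fun _ _ _ _ h => h.symm) hx hy
  refine ⟨k x0, fun y hy hyD => ?_⟩
  rw [h5 x0 hx0 y hy]
  exact (hk y hy).self_of_nhdsWithin hy hyD

lemma freq_of_finite {S L : Set ℝ} (hL : IsOpen L) (hS : (L ∩ S).Finite) {t : ℝ} (ht : t ∈ L) :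
    ∃ᶠ y in 𝓝[L] t, y ∉ S := by
  have h1 : ∀ᶠ y in 𝓝[≠] t, y ∉ S ∧ y ∈ L := by
    have h2 : ((L ∩ S) \ {t}).Finite := hS.subset sdiff_subset
    have h3 : ∀ᶠ y in 𝓝 t, y ∉ (L ∩ S) \ {t} :=
      h2.isClosed.isOpen_compl.mem_nhds (by simp)
    filter_upwards [nhdsWithin_le_nhds h3, nhdsWithin_le_nhds (hL.mem_nhds ht),
      self_mem_nhdsWithin] with y h4 h5 h6
    exact ⟨fun h7 => h4 ⟨⟨h5, h7⟩, h6⟩, h5⟩
  rw [frequently_nhdsWithin_iff]
  exact h1.frequently.filter_mono nhdsWithin_le_nhds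

/-! ## RMV -/

lemma grPt_of_loc {Y : Set E} {p : E} {T : E ≃ₗᵢ[ℝ] E} {b : ℝ × ℝ} {t ε η : ℝ} (hε : 0 < ε)
    (hη : 0 < η) {g : ℝ × ℝ → ℝ} (hg : ContinuousOn g (ball b η)) (hgb : g b = t)
    (hgr : ∀ b' ∈ ball b η, |g b' - t| < ε ∧
      ∀ t', |t' - t| < ε → (pt T p b' t' ∈ Y ↔ t' = g b')) : GrPt Y (pt T p b t) := by
  have hball : ∀ a : ℝ × ℝ, |a.1| < η → |a.2| < η → b + a ∈ ball b η := by
    intro a h1 h2
    rw [mem_ball, Prod.dist_eq, max_lt_iff, Real.dist_eq, Real.dist_eq]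
    simpa using ⟨h1, h2⟩
  refine ⟨T, η, ε, fun a => g (b + a) - t, ?_⟩
  refine { rpos := hη, hpos := hε, cont := ?_, zero := ?_, bd := ?_, eq := ?_ }
  · refine ContinuousOn.sub (hg.comp (by fun_prop) fun a ha => hball a ha.1 ha.2)
      continuousOn_const
  · change g (b + (0, 0)) - t = 0
    rw [show ((0 : ℝ), (0 : ℝ)) = 0 from rfl, add_zero, hgb, sub_self]
  · intro a h1 h2
    exact (hgr _ (hball a h1 h2)).1
  · intro x hx
    obtain ⟨a, ha, t', ht', rfl⟩ := mem_Bx_coord hx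
    have h1 : pt T (pt T p b t) a t' = pt T p (b + a) (t + t') := by
      unfold pt
      rw [add_assoc, ← map_add]
      congr 2
      ext i
      fin_cases i <;> rfl
    rw [T_pt]
    rw [h1, (hgr (b + a) (hball a ha.1 ha.2)).2 (t + t')
      (by rw [add_sub_cancel_left]; exact abs_lt.2 ht')]
    change t + t' = g (b + a) ↔ t' = g (b + (a.1, a.2)) - t
    constructor
    · intro h; rw [← h]; ring
    · intro h; rw [h]; ring

theorem rmv (hD : T_DCH) : T_RMV := by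
  intro Y p T r h A s hPB hLC hF
  have hBo : IsOpen (Bx T p r h) := Bx_open T p r h
  -- transfer to coordinates
  have htr : ∀ (P : E → Prop) (a : ℝ × ℝ) (t : ℝ), (∀ᶠ y in 𝓝 (pt T p a t), P y) →
      ∀ᶠ q : (ℝ × ℝ) × ℝ in 𝓝 (a, t), P (pt T p q.1 q.2) := by
    intro P a t hP
    have h1 : ContinuousAt (fun q : (ℝ × ℝ) × ℝ => pt T p q.1 q.2) (a, t) :=
      (pt_cont T p).continuousAt
    exact h1.eventually hP
  have htv : ∀ (P : E → Prop) (a : ℝ × ℝ) (t : ℝ), (∀ᶠ y in 𝓝 (pt T p a t), P y) →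
      ∀ᶠ t' in 𝓝 t, P (pt T p a t') := by
    intro P a t hP
    have h1 := htr P a t hP
    have h2 : ContinuousAt (fun t' : ℝ => (a, t')) t := by fun_prop
    exact h2.eventually h1
  have hth : ∀ (P : (ℝ × ℝ) × ℝ → Prop) (a : ℝ × ℝ) (t : ℝ), (∀ᶠ q in 𝓝 (a, t), P q) →
      ∀ᶠ b in 𝓝 a, P (b, t) := by
    intro P a t hP
    have h2 : ContinuousAt (fun b : ℝ × ℝ => (b, t)) a := by fun_prop
    exact h2.eventually hP
  -- values over a point of `A`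
  have step1 : ∀ b ∈ A, ∃ c : ℤˣ, ∀ t ∈ Ioo (-h) h, pt T p b t ∉ Y → s (pt T p b t) = c := by
    intro b hb
    have hbS := hPB.Asub hb
    refine glue_const (L := Ioo (-h) h) (D := {t | pt T p b t ∉ Y})
      (convex_Ioo (-h) h).isPreconnected (fun t => s (pt T p b t)) ⟨1⟩ ?_ ?_
    · intro t ht
      have hin : pt T p b t ∈ Bx T p r h := (pt_mem_Bx T p).2 ⟨hbS, ht⟩
      by_cases hY : pt T p b t ∈ Y
      · obtain ⟨ε, hε, η, hη, g, hg1, hg2, hg3⟩ := hPB.loc b hb t ht hY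
        have hGr : GrPt Y (pt T p b t) := grPt_of_loc hε hη hg1 hg2 hg3
        have h1 := (hD Y (Bx T p r h) s _ hBo hin hLC hGr).1
        rcases h1 with h1 | h1
        · exact absurd h1 (hF _ hin hGr)
        · obtain ⟨T', r', h', g', hbox, c, hc⟩ := h1
          refine ⟨c, nhdsWithin_le_nhds ?_⟩
          refine htv (fun y => y ∉ Y → s y = c) b t ?_
          filter_upwards [(Bx_open T' _ r' h').mem_nhds
            (self_mem_Bx T' (pt T p b t) hbox.rpos hbox.hpos)] with y hy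
          exact hc y hy
      · refine ⟨s (pt T p b t), nhdsWithin_le_nhds ?_⟩
        refine htv (fun y => y ∉ Y → s y = s (pt T p b t)) b t ?_
        filter_upwards [hLC _ ⟨hin, hY⟩] with y hy _
        exact hy
    · intro t ht
      exact freq_of_finite (S := {t | pt T p b t ∈ Y}) isOpen_Ioo (hPB.fin b hbS) ht
  choose! k hk using step1
  -- near every parameter
  have hfree : ∀ a ∈ Sq r, ∀ t ∈ Ioo (-h) h, pt T p a t ∉ Y →
      ∀ᶠ b in 𝓝 a, pt T p b t ∉ Y ∧ s (pt T p b t) = s (pt T p a t) := by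
    intro a ha t ht hY
    have hin : pt T p a t ∈ Bx T p r h := (pt_mem_Bx T p).2 ⟨ha, ht⟩
    have h1 := hth _ a t (hPB.closed a ha t ht hY)
    have h2 := hth _ a t (htr _ a t (hLC _ ⟨hin, hY⟩))
    filter_upwards [h1, h2] with b hb1 hb2
    exact ⟨hb1, hb2⟩
  have hfreq : ∀ a ∈ Sq r, ∃ᶠ b in 𝓝 a, b ∈ A := fun a ha =>
    mem_closure_iff_frequently.1 (hPB.Adense ha)
  obtain ⟨c, hc⟩ := glue_const (L := Sq r) (D := A) (Sq_convex r).isPreconnected k ⟨1⟩ (by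
    intro a ha
    have h0 : (0 : ℝ) ∈ Ioo (-h) h := ⟨by linarith [hPB.hpos], hPB.hpos⟩
    obtain ⟨t, ht, htY⟩ : ∃ t ∈ Ioo (-h) h, pt T p a t ∉ Y := by
      have h1 := freq_of_finite (S := {t | pt T p a t ∈ Y}) isOpen_Ioo (hPB.fin a ha) h0
      obtain ⟨t, ht1, ht2⟩ := (h1.and_eventually self_mem_nhdsWithin).exists
      exact ⟨t, ht2, ht1⟩
    refine ⟨s (pt T p a t), nhdsWithin_le_nhds ?_⟩
    filter_upwards [hfree a ha t ht htY] with b hb hbA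
    rw [← hk b hbA t ht hb.1, hb.2]) (by
    intro a ha
    rw [frequently_nhdsWithin_iff]
    exact (hfreq a ha).mono fun b hb => ⟨hb, hPB.Asub hb⟩)
  refine ⟨c, fun x hx hxY => ?_⟩
  obtain ⟨a, ha, t, ht, rfl⟩ := mem_Bx_coord hx
  obtain ⟨b, hbA, hb⟩ := ((hfreq a ha).and_eventually (hfree a ha t ht hxY)).exists
  rw [← hb.2, hk b hbA t ht hb.1]
  exact hc b (hPB.Asub hbA) hbA

/-! ## RMG -/

lemma Bx_small (T : E ≃ₗᵢ[ℝ] E) (p : E) {r h ε : ℝ} (hr : r < ε) (hh : h < ε) :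
    Bx T p r h ⊆ ball p (2 * ε) := by
  intro x hx
  have h0 : 0 < ε := lt_of_le_of_lt (abs_nonneg _) (hx.1.trans hr)
  rw [mem_ball, dist_eq_norm, ← T.norm_map (x - p), EuclideanSpace.norm_eq]
  rw [Real.sqrt_lt' (by linarith)]
  rw [Fin.sum_univ_three]
  have h1 : ‖(T (x - p)) 0‖ ^ 2 < ε ^ 2 := by
    rw [Real.norm_eq_abs]
    exact pow_lt_pow_left₀ (hx.1.trans hr) (abs_nonneg _) two_ne_zero
  have h2 : ‖(T (x - p)) 1‖ ^ 2 < ε ^ 2 := by
    rw [Real.norm_eq_abs]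
    exact pow_lt_pow_left₀ (hx.2.1.trans hr) (abs_nonneg _) two_ne_zero
  have h3 : ‖(T (x - p)) 2‖ ^ 2 < ε ^ 2 := by
    rw [Real.norm_eq_abs]
    exact pow_lt_pow_left₀ (hx.2.2.trans hh) (abs_nonneg _) two_ne_zero
  nlinarith

theorem rmg (hB : T_PBX) (hS : T_SGN) (hR : T_RMV) : T_RMG := by
  intro Y W hW hAN
  -- small parity boxes
  have hbox : ∀ p ∈ W, ∀ N ∈ 𝓝 p, ∃ (T : E ≃ₗᵢ[ℝ] E) (r h : ℝ) (A : Set (ℝ × ℝ)),
      PB Y p T r h A ∧ Bx T p r h ⊆ N := by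
    intro p hp N hN
    obtain ⟨δ, hδ, h1⟩ := Metric.mem_nhds_iff.1 hN
    obtain ⟨T, r, h, A, hr, hh, hPB⟩ := hB Y p (hAN p hp) (δ / 2) (by linarith)
    refine ⟨T, r, h, A, hPB, (Bx_small T p hr hh).trans ?_⟩
    rw [mul_div_cancel₀ δ two_ne_zero]
    exact h1
  have h2 : ∀ W' : Set E, IsOpen W' → W' ⊆ W → W'.Nonempty → (W' \ Y).Nonempty := by
    intro W' hW' hsub hne
    obtain ⟨p, hp⟩ := hne
    obtain ⟨T, r, h, A, hPB, hbx⟩ := hbox p (hsub hp) W' (hW'.mem_nhds hp)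
    have h0 : (0 : ℝ) ∈ Ioo (-h) h := ⟨by linarith [hPB.hpos], hPB.hpos⟩
    have h00 : (0 : ℝ × ℝ) ∈ Sq r := by
      constructor <;> simpa using hPB.rpos
    have h1 := freq_of_finite (S := {t | pt T p 0 t ∈ Y}) isOpen_Ioo (hPB.fin 0 h00) h0
    obtain ⟨t, ht1, ht2⟩ := (h1.and_eventually self_mem_nhdsWithin).exists
    exact ⟨pt T p 0 t, hbx ((pt_mem_Bx T p).2 ⟨h00, ht2⟩), ht1⟩
  refine ⟨?_, h2, ?_⟩
  · intro p hp N hN
    obtain ⟨T, r, h, A, hPB, hbx⟩ := hbox p hp N hN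
    obtain ⟨s, hs⟩ := hS Y p T r h A hPB
    exact ⟨Bx T p r h, s, Bx_open T p r h, self_mem_Bx T p hPB.rpos hPB.hpos, hbx, hs⟩
  · intro s hLC hF
    have h3 : ∀ p ∈ W, ∃ W' : Set E, IsOpen W' ∧ p ∈ W' ∧ W' ⊆ W ∧
        ∃ c : ℤˣ, ∀ x ∈ W' \ Y, s x = c := by
      intro p hp
      obtain ⟨T, r, h, A, hPB, hbx⟩ := hbox p hp W (hW.mem_nhds hp)
      obtain ⟨c, hc⟩ := hR Y p T r h A s hPB (fun x hx => hLC x ⟨hbx hx.1, hx.2⟩)
        (fun q hq => hF q (hbx hq))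
      exact ⟨Bx T p r h, Bx_open T p r h, self_mem_Bx T p hPB.rpos hPB.hpos, hbx, c,
        fun x hx => hc x hx.1 hx.2⟩
    refine ⟨h3, fun hconn => ?_⟩
    obtain ⟨c, hc⟩ := glue_const (L := W) (D := Yᶜ) hconn s ⟨1⟩ (by
      intro x hx
      obtain ⟨W', hW', hxW', -, c, hc⟩ := h3 x hx
      refine ⟨c, nhdsWithin_le_nhds ?_⟩
      filter_upwards [hW'.mem_nhds hxW'] with y hy hyY
      exact hc y ⟨hy, hyY⟩) (by
      intro x hx
      rw [frequently_nhdsWithin_iff, frequently_nhds_iff]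
      intro V hxV hVo
      obtain ⟨y, hy, hyY⟩ := h2 (V ∩ W) (hVo.inter hW) inter_subset_right ⟨x, hxV, hx⟩
      exact ⟨y, hy.1, hyY, hy.2⟩)
    exact ⟨c, fun x hx => hc x hx.1 hx.2⟩

end Pool.Agent.H4.IC
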