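import Pool.Agent.H94.IC.Targets1

/-!
# Insulating cracks: zeros of holomorphic functions with real parameters (helper4)
-/

open MeasureTheory Set Filter Topology Metric
open scoped ENNReal NNReal ContDiff RealInnerProductSpace ComplexConjugate

namespace Pool.Agent.H4.IC

open Pool.Agent.H94.IC

/-- `F` as a function of the last variable -/
def gg (F : C3 → ℂ) (a : ℝ × ℝ) (z : ℂ) : ℂ := F ![(a.1 : ℂ), (a.2 : ℂ), z]

/-- zeros in a disc -/
def Zr (F : C3 → ℂ) (c : ℂ) (R : ℝ) (a : ℝ × ℝ) : Set ℂ := {z | z ∈ ball c R ∧ gg F a z = 0}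

/-- the parameters -/
def Pa (ρ : ℝ) : Set (ℝ × ℝ) := {a | |a.1| < ρ ∧ |a.2| < ρ}

lemma Pa_open (ρ : ℝ) : IsOpen (Pa ρ) := by
  have h1 : IsOpen {a : ℝ × ℝ | |a.1| < ρ} := isOpen_lt (by fun_prop) continuous_const
  have h2 : IsOpen {a : ℝ × ℝ | |a.2| < ρ} := isOpen_lt (by fun_prop) continuous_const
  exact h1.inter h2

lemma ball_sub_Pa {a0 : ℝ × ℝ} {r ρ : ℝ} (h1 : |a0.1| + r ≤ ρ) (h2 : |a0.2| + r ≤ ρ) :
    ball a0 r ⊆ Pa ρ := by
  intro a ha
  rw [mem_ball, Prod.dist_eq, max_lt_iff, Real.dist_eq, Real.dist_eq] at ha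
  constructor
  · have := abs_sub_abs_le_abs_sub a.1 a0.1
    linarith
  · have := abs_sub_abs_le_abs_sub a.2 a0.2
    linarith

lemma mem3 {ρ : ℝ} {x y z : ℂ} (hx : ‖x‖ < ρ) (hy : ‖y‖ < ρ) (hz : ‖z‖ < ρ) :
    (![x, y, z] : C3) ∈ ball (0 : C3) ρ := by
  have h0 : 0 < ρ := lt_of_le_of_lt (norm_nonneg _) hx
  rw [mem_ball_zero_iff, pi_norm_lt_iff h0]
  intro i
  fin_cases i
  · exact hx
  · exact hy
  · exact hz

lemma norm_of_Pa {ρ : ℝ} {a : ℝ × ℝ} (ha : a ∈ Pa ρ) : ‖(a.1 : ℂ)‖ < ρ ∧ ‖(a.2 : ℂ)‖ < ρ := by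
  rw [Complex.norm_real, Complex.norm_real]
  exact ha

lemma cont3 {ρ : ℝ} {F : C3 → ℂ} (hF : GH (ball 0 ρ) F) :
    ContinuousOn (fun q : (ℂ × ℂ) × ℂ => F ![q.1.1, q.1.2, q.2])
      {q | ‖q.1.1‖ < ρ ∧ ‖q.1.2‖ < ρ ∧ ‖q.2‖ < ρ} := by
  have h1 : Continuous (fun q : (ℂ × ℂ) × ℂ => (![q.1.1, q.1.2, q.2] : C3)) := by
    refine continuous_pi fun i => ?_
    fin_cases i
    · exact continuous_fst.fst
    · exact continuous_fst.snd
    · exact continuous_snd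
  exact hF.1.comp h1.continuousOn fun q hq => mem3 hq.1 hq.2.1 hq.2.2

lemma gg_cont {ρ : ℝ} {F : C3 → ℂ} (hF : GH (ball 0 ρ) F) :
    ContinuousOn (fun q : (ℝ × ℝ) × ℂ => gg F q.1 q.2) {q | q.1 ∈ Pa ρ ∧ ‖q.2‖ < ρ} := by
  have h1 : Continuous (fun q : (ℝ × ℝ) × ℂ => (((q.1.1 : ℂ), (q.1.2 : ℂ)), q.2)) := by
    fun_prop
  refine (cont3 hF).comp h1.continuousOn fun q hq => ?_
  exact ⟨(norm_of_Pa hq.1).1, (norm_of_Pa hq.1).2, hq.2⟩

lemma dom_open (ρ : ℝ) : IsOpen {q : (ℝ × ℝ) × ℂ | q.1 ∈ Pa ρ ∧ ‖q.2‖ < ρ} := by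
  have h1 : IsOpen {q : (ℝ × ℝ) × ℂ | q.1 ∈ Pa ρ} := (Pa_open ρ).preimage continuous_fst
  have h2 : IsOpen {q : (ℝ × ℝ) × ℂ | ‖q.2‖ < ρ} := isOpen_lt (by fun_prop) continuous_const
  exact h1.inter h2

lemma gg_diff {ρ : ℝ} {F : C3 → ℂ} (hF : GH (ball 0 ρ) F) {a : ℝ × ℝ} (ha : a ∈ Pa ρ) {z : ℂ}
    (hz : ‖z‖ < ρ) : DifferentiableAt ℂ (gg F a) z := by
  have h1 := hF.2 ![(a.1 : ℂ), (a.2 : ℂ), z]
    (mem3 (norm_of_Pa ha).1 (norm_of_Pa ha).2 hz) ![0, 0, 1]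
  have h2 : (fun t : ℂ => F ((![(a.1 : ℂ), (a.2 : ℂ), z] : C3) + t • (![0, 0, 1] : C3))) =
      fun t => gg F a (z + t) := by
    funext t
    unfold gg
    congr 1
    funext i
    fin_cases i <;> simp
  rw [h2] at h1
  have h3 : gg F a = fun w => (fun t => gg F a (z + t)) (w - z) := by
    funext w
    simp
  rw [h3]
  have h4 : DifferentiableAt ℂ (fun t => gg F a (z + t)) (z - z) := by
    rw [sub_self]; exact h1
  exact DifferentiableAt.comp (f := fun w => w - z) z h4 (by fun_prop)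

lemma gg_diffOn {ρ : ℝ} {F : C3 → ℂ} (hF : GH (ball 0 ρ) F) {a : ℝ × ℝ} (ha : a ∈ Pa ρ) :
    DifferentiableOn ℂ (gg F a) (ball 0 ρ) := fun _ hz =>
  (gg_diff hF ha (mem_ball_zero_iff.1 hz)).differentiableWithinAt

lemma gg_an {ρ : ℝ} {F : C3 → ℂ} (hF : GH (ball 0 ρ) F) {a : ℝ × ℝ} (ha : a ∈ Pa ρ) :
    AnalyticOnNhd ℂ (gg F a) (ball 0 ρ) := (gg_diffOn hF ha).analyticOnNhd isOpen_ball

/-- symmetry under conjugation -/
lemma gg_conj {ρ : ℝ} {F : C3 → ℂ} (hF : GH (ball 0 ρ) F) {a : ℝ × ℝ} (ha : a ∈ Pa ρ)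
    (hre : ∀ t : ℝ, |t| < ρ → (gg F a (t : ℂ)).im = 0) {z : ℂ} (hz : ‖z‖ < ρ) :
    gg F a (conj z) = conj (gg F a z) := by
  have h0 : 0 < ρ := lt_of_le_of_lt (norm_nonneg _) hz
  set f2 : ℂ → ℂ := fun w => conj (gg F a (conj w)) with hf2
  have h1 : AnalyticOnNhd ℂ f2 (ball 0 ρ) := by
    refine DifferentiableOn.analyticOnNhd (fun w hw => ?_) isOpen_ball
    have h2 : DifferentiableAt ℂ (gg F a) (conj w) := gg_diff hF ha (by
      rw [Complex.norm_conj]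
      exact mem_ball_zero_iff.1 hw)
    have h3 := h2.conj_conj
    rw [Complex.conj_conj] at h3
    exact h3.differentiableWithinAt
  have h4 : EqOn (gg F a) f2 (ball 0 ρ) := by
    refine (gg_an hF ha).eqOn_of_preconnected_of_frequently_eq h1
      (convex_ball 0 ρ).isPreconnected (mem_ball_self h0) ?_
    have h5 : Tendsto (fun t : ℝ => (t : ℂ)) (𝓝[≠] 0) (𝓝[≠] 0) := by
      refine tendsto_nhdsWithin_iff.2 ⟨?_, ?_⟩
      · have : Tendsto (fun t : ℝ => (t : ℂ)) (𝓝 0) (𝓝 0) := by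
          simpa using (Complex.continuous_ofReal.tendsto (0 : ℝ))
        exact this.mono_left nhdsWithin_le_nhds
      · filter_upwards [self_mem_nhdsWithin] with t ht
        exact Complex.ofReal_ne_zero.2 ht
    refine h5.frequently ?_
    refine Eventually.frequently ?_
    have h6 : ∀ᶠ t : ℝ in 𝓝[≠] 0, |t| < ρ := by
      refine nhdsWithin_le_nhds ?_
      have : ball (0 : ℝ) ρ ∈ 𝓝 (0 : ℝ) := ball_mem_nhds _ h0
      filter_upwards [this] with t ht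
      simpa [Real.dist_eq] using ht
    filter_upwards [h6] with t ht
    rw [hf2]
    simp only [Complex.conj_ofReal]
    exact (Complex.conj_eq_iff_im.2 (hre t ht)).symm
  have h7 := h4 (x := conj z) (by
    rw [mem_ball_zero_iff, Complex.norm_conj]; exact hz)
  rw [h7, hf2]
  simp

/-! ## parity -/

lemma parity_conj (Z : Set ℂ) (hfin : Z.Finite) (hc : ∀ z ∈ Z, conj z ∈ Z) :
    Z.ncard % 2 = {z | z ∈ Z ∧ z.im = 0}.ncard % 2 := by
  classical
  set N : Set ℂ := {z | z ∈ Z ∧ z.im ≠ 0} with hN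
  have hNf : N.Finite := hfin.subset fun z hz => hz.1
  have hRf : {z | z ∈ Z ∧ z.im = 0}.Finite := hfin.subset fun z hz => hz.1
  have h1 : Z.ncard = {z | z ∈ Z ∧ z.im = 0}.ncard + N.ncard := by
    have h2 : Z = {z | z ∈ Z ∧ z.im = 0} ∪ N := by
      ext z
      constructor
      · intro hz
        by_cases h : z.im = 0
        · exact Or.inl ⟨hz, h⟩
        · exact Or.inr ⟨hz, h⟩
      · rintro (h | h)
        · exact h.1
        · exact h.1
    conv_lhs => rw [h2]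
    refine ncard_union_eq ?_ hRf hNf
    rw [Set.disjoint_left]
    intro z h3 h4
    exact h4.2 h3.2
  have h5 : Even N.ncard := by
    rw [ncard_eq_toFinset_card N hNf]
    have h6 : (∑ _z ∈ hNf.toFinset, (1 : ZMod 2)) = 0 := by
      refine Finset.sum_involution (fun z _ => conj z) ?_ ?_ ?_ ?_
      · intro z _
        decide
      · intro z hz _ h
        rw [Finite.mem_toFinset] at hz
        exact hz.2 (Complex.conj_eq_iff_im.1 h)
      · intro z hz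
        rw [Finite.mem_toFinset] at hz ⊢
        exact ⟨hc z hz.1, by simpa using hz.2⟩
      · intro z _
        simp
    rw [Finset.sum_const, nsmul_eq_mul, mul_one] at h6
    rwa [ZMod.natCast_eq_zero_iff_even] at h6
  obtain ⟨k, hk⟩ := h5
  omega

lemma re_zeros {ρ : ℝ} {F : C3 → ℂ} (hF : GH (ball 0 ρ) F) {a : ℝ × ℝ} (ha : a ∈ Pa ρ)
    (hre : ∀ t : ℝ, |t| < ρ → (gg F a (t : ℂ)).im = 0) {c R : ℝ} (hc : |c| + R ≤ ρ)
    (hfin : (Zr F c R a).Finite) :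
    {t : ℝ | t ∈ Ioo (c - R) (c + R) ∧ gg F a (t : ℂ) = 0}.ncard % 2 = (Zr F c R a).ncard % 2 := by
  have hsub : ∀ z ∈ ball (c : ℂ) R, ‖z‖ < ρ := by
    intro z hz
    rw [mem_ball, Complex.dist_eq] at hz
    have h1 : ‖z‖ ≤ ‖z - c‖ + ‖(c : ℂ)‖ := by
      simpa using norm_add_le (z - c) (c : ℂ)
    rw [Complex.norm_real, Real.norm_eq_abs] at h1
    linarith
  rw [parity_conj (Zr F c R a) hfin ?_]
  · congr 1
    refine (ncard_congr (fun t _ => (t : ℂ)) ?_ ?_ ?_)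
    · intro t ht
      refine ⟨⟨?_, ht.2⟩, Complex.ofReal_im t⟩
      rw [mem_ball, Complex.dist_eq, ← Complex.ofReal_sub, Complex.norm_real, Real.norm_eq_abs,
        abs_lt]
      constructor
      · linarith [ht.1.1]
      · linarith [ht.1.2]
    · intro t t' _ _ h
      exact Complex.ofReal_injective h
    · intro z hz
      have h1 : (z.re : ℂ) = z := by
        rw [Complex.ext_iff]
        exact ⟨rfl, by rw [Complex.ofReal_im, hz.2]⟩
      refine ⟨z.re, ⟨?_, by rw [h1]; exact hz.1.2⟩, h1⟩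
      have h2 := hz.1.1
      rw [← h1, mem_ball, Complex.dist_eq, ← Complex.ofReal_sub, Complex.norm_real,
        Real.norm_eq_abs, abs_lt] at h2
      constructor
      · linarith [h2.1]
      · linarith [h2.2]
  · intro z hz
    refine ⟨?_, ?_⟩
    · have h1 := hz.1
      rw [mem_ball] at h1 ⊢
      rw [← Complex.conj_ofReal c, Complex.dist_conj_conj]
      exact h1
    · rw [gg_conj hF ha hre (hsub z hz.1), hz.2, map_zero]

/-! ## persistence -/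

lemma prs' (hP : T_PRS) {ρ : ℝ} {F : C3 → ℂ} (hF : GH (ball 0 ρ) F) {a : ℝ × ℝ} (ha : a ∈ Pa ρ)
    {z0 : ℂ} {ε : ℝ} (hε : 0 < ε) (hsub : closedBall z0 ε ⊆ ball 0 ρ) (h0 : gg F a z0 = 0)
    (hs : ∀ z ∈ sphere z0 ε, gg F a z ≠ 0) : ∀ᶠ b in 𝓝 a, ∃ z ∈ ball z0 ε, gg F b z = 0 := by
  have h1 := hP (Pa ρ) (fun x z => gg F x.1 z) ⟨a, ha⟩ z0 ε hε ?_ ?_ h0 hs
  · have h2 := map_nhds_subtype_coe_eq_nhds (p := fun x => x ∈ Pa ρ) ha ((Pa_open ρ).mem_nhds ha)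
    rw [← h2]
    exact h1
  · refine (gg_cont hF).comp (f := fun q : Pa ρ × ℂ => (q.1.1, q.2)) (by fun_prop) ?_
    rintro ⟨x, z⟩ ⟨-, hz⟩
    exact ⟨x.2, mem_ball_zero_iff.1 (hsub hz)⟩
  · intro x
    exact (gg_diffOn hF x.2).mono (ball_subset_closedBall.trans hsub)

/-- separation constants of a finite set -/
lemma exists_sep (Z : Set ℂ) (hfin : Z.Finite) (O : Set ℂ) (hO : IsOpen O) (hZO : Z ⊆ O) :
    ∃ η₀ > 0, (∀ z ∈ Z, closedBall z η₀ ⊆ O) ∧ ∀ z ∈ Z, ∀ z' ∈ Z, z ≠ z' → 2 * η₀ < dist z z' := by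
  obtain ⟨δ, hδ, h1⟩ := hfin.isCompact.exists_cthickening_subset_open hO hZO
  have h2 : ∃ η > 0, ∀ z ∈ Z, ∀ z' ∈ Z, z ≠ z' → 2 * η < dist z z' := by
    by_cases hne : Z.Nontrivial
    · have h3 : 0 < Z.infsep := hfin.infsep_pos_iff_nontrivial.2 hne
      refine ⟨Z.infsep / 4, by linarith, fun z hz z' hz' hzz => ?_⟩
      have h4 := infsep_le_dist_of_mem hz hz' hzz
      linarith
    · refine ⟨1, one_pos, fun z hz z' hz' hzz => ?_⟩
      exact absurd ⟨z, hz, z', hz', hzz⟩ hne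
  obtain ⟨η, hη, h3⟩ := h2
  refine ⟨min δ η, lt_min hδ hη, fun z hz => ?_, fun z hz z' hz' hzz => ?_⟩
  · refine (closedBall_subset_closedBall (min_le_left _ _)).trans ?_
    exact (closedBall_subset_cthickening hz δ).trans h1
  · have := h3 z hz z' hz' hzz
    have := min_le_right δ η
    linarith

/-- local structure of the zeros where their number is constant -/
lemma locstr (hP : T_PRS) {ρ : ℝ} {F : C3 → ℂ} (hF : GH (ball 0 ρ) F) {a : ℝ × ℝ} (ha : a ∈ Pa ρ)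
    {c : ℂ} {R : ℝ} (hsub : ball c R ⊆ ball 0 ρ)
    (hn : ∀ᶠ b in 𝓝 a, (Zr F c R b).Finite ∧ (Zr F c R b).ncard = (Zr F c R a).ncard)
    {η : ℝ} (hη : 0 < η) (h1 : ∀ z ∈ Zr F c R a, closedBall z η ⊆ ball c R)
    (h2 : ∀ z ∈ Zr F c R a, ∀ z' ∈ Zr F c R a, z ≠ z' → 2 * η < dist z z') :
    ∀ᶠ b in 𝓝 a, ∃ w : ℂ → ℂ, (∀ z ∈ Zr F c R a, w z ∈ ball z η ∧ w z ∈ Zr F c R b) ∧
      ∀ x ∈ Zr F c R b, ∃ z ∈ Zr F c R a, x = w z := by
  classical
  have hfa : (Zr F c R a).Finite := hn.self_of_nhds.1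
  have h3 : ∀ᶠ b in 𝓝 a, ∀ z ∈ Zr F c R a, ∃ x ∈ ball z η, gg F b x = 0 := by
    rw [eventually_all_finite hfa]
    intro z hz
    refine prs' hP hF ha hη ((h1 z hz).trans hsub) hz.2 fun x hx h0 => ?_
    have h4 : x ∈ Zr F c R a := ⟨h1 z hz (sphere_subset_closedBall hx), h0⟩
    have h5 : z ≠ x := by
      rintro rfl
      rw [mem_sphere, dist_self] at hx
      exact hη.ne hx
    have h6 := h2 z hz x h4 h5
    rw [mem_sphere, dist_comm] at hx
    linarith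
  filter_upwards [h3, hn] with b hb hnb
  choose! w hw using hb
  have h7 : ∀ z ∈ Zr F c R a, w z ∈ ball z η ∧ w z ∈ Zr F c R b := fun z hz =>
    ⟨(hw z hz).1, h1 z hz (ball_subset_closedBall (hw z hz).1), (hw z hz).2⟩
  have hinj : InjOn w (Zr F c R a) := by
    intro z hz z' hz' h
    by_contra hne
    have h8 := h2 z hz z' hz' hne
    have h9 := (h7 z hz).1
    have h10 := (h7 z' hz').1
    rw [mem_ball] at h9 h10
    rw [h] at h9
    have := dist_triangle_left z z' (w z')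
    linarith
  refine ⟨w, h7, ?_⟩
  have h11 : w '' Zr F c R a = Zr F c R b := by
    refine eq_of_subset_of_ncard_le ?_ ?_ hnb.1
    · rintro _ ⟨z, hz, rfl⟩
      exact (h7 z hz).2
    · rw [hinj.ncard_image, hnb.2]
  intro x hx
  rw [← h11] at hx
  obtain ⟨z, hz, rfl⟩ := hx
  exact ⟨z, hz, rfl⟩

/-- constancy of the number of zeros in a smaller disc -/
lemma const_small (hP : T_PRS) {ρ : ℝ} {F : C3 → ℂ} (hF : GH (ball 0 ρ) F) {a : ℝ × ℝ}
    (ha : a ∈ Pa ρ) {c c' : ℂ} {R R' : ℝ} (hsub : ball c R ⊆ ball 0 ρ)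
    (hn : ∀ᶠ b in 𝓝 a, (Zr F c R b).Finite ∧ (Zr F c R b).ncard = (Zr F c R a).ncard)
    (hs : ball c' R' ⊆ ball c R) (hne : ∀ z ∈ sphere c' R', gg F a z ≠ 0) :
    ∀ᶠ b in 𝓝 a, (Zr F c' R' b).ncard = (Zr F c' R' a).ncard := by
  have hfa : (Zr F c R a).Finite := hn.self_of_nhds.1
  obtain ⟨η₀, hη₀, h1, h2⟩ := exists_sep (Zr F c R a) hfa (ball c R) isOpen_ball fun z hz => hz.1
  obtain ⟨η₁, hη₁, h3, -⟩ := exists_sep (Zr F c R a) hfa (sphere c' R')ᶜ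
    isClosed_sphere.isOpen_compl fun z hz hz' => hne z hz' hz.2
  set η := min η₀ η₁ with hη
  have hηp : 0 < η := lt_min hη₀ hη₁
  have h1' : ∀ z ∈ Zr F c R a, closedBall z η ⊆ ball c R := fun z hz =>
    (closedBall_subset_closedBall (min_le_left _ _)).trans (h1 z hz)
  have h2' : ∀ z ∈ Zr F c R a, ∀ z' ∈ Zr F c R a, z ≠ z' → 2 * η < dist z z' := by
    intro z hz z' hz' hzz
    have := h2 z hz z' hz' hzz
    have := min_le_left η₀ η₁
    linarith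
  -- small discs do not cross the circle
  have h4 : ∀ z ∈ Zr F c R a, ∀ x ∈ ball z η, (x ∈ ball c' R' ↔ z ∈ ball c' R') := by
    intro z hz x hx
    have h5 : closedBall z η ⊆ (sphere c' R')ᶜ :=
      (closedBall_subset_closedBall (min_le_right _ _)).trans (h3 z hz)
    have hpre : IsPreconnected (closedBall z η) := (convex_closedBall z η).isPreconnected
    have h6 : closedBall z η ⊆ ball c' R' ∪ (closedBall c' R')ᶜ := by
      intro y hy
      have h7 := h5 hy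
      rw [mem_compl_iff, mem_sphere] at h7
      rcases lt_or_gt_of_ne h7 with h8 | h8
      · exact Or.inl h8
      · exact Or.inr (by rw [mem_compl_iff, mem_closedBall, not_le]; exact h8)
    have h7 : Disjoint (ball c' R') (closedBall c' R')ᶜ := by
      rw [Set.disjoint_left]
      intro y hy hy'
      exact hy' (ball_subset_closedBall hy)
    have h8 := hpre.subset_or_subset isOpen_ball isClosed_closedBall.isOpen_compl h7 h6
    have hzc : z ∈ closedBall z η := mem_closedBall_self hηp.le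
    have hxc : x ∈ closedBall z η := ball_subset_closedBall hx
    rcases h8 with h8 | h8
    · exact ⟨fun _ => h8 hzc, fun _ => h8 hxc⟩
    · constructor
      · intro h9
        exact absurd (ball_subset_closedBall h9) (h8 hxc)
      · intro h9
        exact absurd (ball_subset_closedBall h9) (h8 hzc)
  filter_upwards [locstr hP hF ha hsub hn hηp h1' h2'] with b hb
  obtain ⟨w, hw1, hw2⟩ := hb
  have hinj : InjOn w (Zr F c R a) := by
    intro z hz z' hz' h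
    by_contra hne
    have h8 := h2' z hz z' hz' hne
    have h9 := (hw1 z hz).1
    have h10 := (hw1 z' hz').1
    rw [mem_ball] at h9 h10
    rw [h] at h9
    have := dist_triangle_left z z' (w z')
    linarith
  have h5 : Zr F c' R' a ⊆ Zr F c R a := fun z hz => ⟨hs hz.1, hz.2⟩
  have h6 : w '' Zr F c' R' a = Zr F c' R' b := by
    ext x
    constructor
    · rintro ⟨z, hz, rfl⟩
      exact ⟨(h4 z (h5 hz) _ (hw1 z (h5 hz)).1).2 hz.1, (hw1 z (h5 hz)).2.2⟩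
    · intro hx
      obtain ⟨z, hz, rfl⟩ := hw2 x ⟨hs hx.1, hx.2⟩
      exact ⟨z, ⟨(h4 z hz _ (hw1 z hz).1).1 hx.1, hz.2⟩, rfl⟩
  rw [← h6, (hinj.mono h5).ncard_image]

/-- zero-free circles stay zero-free -/
lemma tube {ρ : ℝ} {F : C3 → ℂ} (hF : GH (ball 0 ρ) F) {a : ℝ × ℝ} (ha : a ∈ Pa ρ)
    {K : Set ℂ} (hK : IsCompact K) (hKρ : ∀ z ∈ K, ‖z‖ < ρ) (hne : ∀ z ∈ K, gg F a z ≠ 0) :
    ∃ r > 0, |a.1| + r ≤ ρ ∧ |a.2| + r ≤ ρ ∧
      ∀ b : ℂ × ℂ, ‖b.1 - a.1‖ < r → ‖b.2 - a.2‖ < r → ∀ z ∈ K, F ![b.1, b.2, z] ≠ 0 := by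
  have h1 : ∀ᶠ b : ℂ × ℂ in 𝓝 ((a.1 : ℂ), (a.2 : ℂ)), ∀ z ∈ K, F ![b.1, b.2, z] ≠ 0 := by
    refine hK.eventually_forall_of_forall_eventually fun z hz => ?_
    have hop : IsOpen {q : (ℂ × ℂ) × ℂ | ‖q.1.1‖ < ρ ∧ ‖q.1.2‖ < ρ ∧ ‖q.2‖ < ρ} := by
      have h1 : IsOpen {q : (ℂ × ℂ) × ℂ | ‖q.1.1‖ < ρ} := isOpen_lt (by fun_prop) continuous_const
      have h2 : IsOpen {q : (ℂ × ℂ) × ℂ | ‖q.1.2‖ < ρ} := isOpen_lt (by fun_prop) continuous_const
      have h3 : IsOpen {q : (ℂ × ℂ) × ℂ | ‖q.2‖ < ρ} := isOpen_lt (by fun_prop) continuous_const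
      exact h1.inter (h2.inter h3)
    have h2 : ContinuousAt (fun q : (ℂ × ℂ) × ℂ => F ![q.1.1, q.1.2, q.2])
        (((a.1 : ℂ), (a.2 : ℂ)), z) :=
      (cont3 hF).continuousAt (hop.mem_nhds
        ⟨(norm_of_Pa ha).1, (norm_of_Pa ha).2, hKρ z hz⟩)
    exact h2.eventually_ne (hne z hz)
  obtain ⟨δ, hδ, h2⟩ := Metric.eventually_nhds_iff_ball.1 h1
  refine ⟨min δ (min (ρ - |a.1|) (ρ - |a.2|)),
    lt_min hδ (lt_min (by linarith [ha.1]) (by linarith [ha.2])), ?_, ?_, ?_⟩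
  · have h3 : min δ (min (ρ - |a.1|) (ρ - |a.2|)) ≤ ρ - |a.1| :=
      (min_le_right _ _).trans (min_le_left _ _)
    linarith
  · have h3 : min δ (min (ρ - |a.1|) (ρ - |a.2|)) ≤ ρ - |a.2| :=
      (min_le_right _ _).trans (min_le_right _ _)
    linarith
  · intro b hb1 hb2 z hz
    refine h2 b ?_ z hz
    rw [mem_ball, Prod.dist_eq, max_lt_iff, Complex.dist_eq, Complex.dist_eq]
    exact ⟨lt_of_lt_of_le hb1 (min_le_left _ _), lt_of_lt_of_le hb2 (min_le_left _ _)⟩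

end Pool.Agent.H4.IC
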