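import Pool.Agent.H4.IC.Base

/-!
# Insulating cracks: modules RLZ and PBX (helper4)
-/

open MeasureTheory Set Filter Topology Metric
open scoped ENNReal NNReal ContDiff RealInnerProductSpace ComplexConjugate

namespace Pool.Agent.H4.IC

open Pool.Agent.H94.IC

lemma disc_sub {ρ c R : ℝ} (hc : |c| + R ≤ ρ) : ball (c : ℂ) R ⊆ ball 0 ρ := by
  intro z hz
  rw [mem_ball, Complex.dist_eq] at hz
  rw [mem_ball_zero_iff]
  have h1 : ‖z‖ ≤ ‖z - c‖ + ‖(c : ℂ)‖ := by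
    simpa using norm_add_le (z - c) (c : ℂ)
  rw [Complex.norm_real, Real.norm_eq_abs] at h1
  linarith

/-- real zeros are locally graphs where the number of complex zeros is constant -/
lemma graph (hP : T_PRS) {ρ : ℝ} {F : C3 → ℂ} (hF : GH (ball 0 ρ) F) {a : ℝ × ℝ} (ha : a ∈ Pa ρ)
    (hre : ∀ b ∈ Pa ρ, ∀ t : ℝ, |t| < ρ → (gg F b (t : ℂ)).im = 0)
    {c : ℂ} {R : ℝ} (hsub : ball c R ⊆ ball 0 ρ)
    (hn : ∀ᶠ b in 𝓝 a, (Zr F c R b).Finite ∧ (Zr F c R b).ncard = (Zr F c R a).ncard)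
    {t : ℝ} (ht : (t : ℂ) ∈ Zr F c R a) :
    ∃ ε > 0, ∃ η > 0, ∃ g : ℝ × ℝ → ℝ, ContinuousOn g (ball a η) ∧ g a = t ∧
      ∀ b ∈ ball a η, |g b - t| < ε ∧
        ∀ t' : ℝ, |t' - t| < ε → (gg F b (t' : ℂ) = 0 ↔ t' = g b) := by
  classical
  have hfa : (Zr F c R a).Finite := hn.self_of_nhds.1
  obtain ⟨ε, hε, h1, h2⟩ := exists_sep (Zr F c R a) hfa (ball c R) isOpen_ball fun z hz => hz.1
  have h3 : ∀ᶠ b in 𝓝 a, b ∈ Pa ρ ∧ ∃ x ∈ ball (t : ℂ) ε, gg F b x = 0 ∧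
      ∀ y ∈ ball (t : ℂ) ε, gg F b y = 0 → y = x := by
    filter_upwards [locstr hP hF ha hsub hn hε h1 h2, (Pa_open ρ).mem_nhds ha] with b hb hbP
    obtain ⟨w, hw1, hw2⟩ := hb
    refine ⟨hbP, w t, (hw1 t ht).1, (hw1 t ht).2.2, fun y hy hy0 => ?_⟩
    have h4 : y ∈ Zr F c R b := ⟨h1 t ht (ball_subset_closedBall hy), hy0⟩
    obtain ⟨z, hz, rfl⟩ := hw2 y h4
    by_cases hzt : (t : ℂ) = z
    · rw [hzt]
    · exfalso
      have h5 := h2 t ht z hz hzt
      have h6 := (hw1 z hz).1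
      rw [mem_ball] at h6 hy
      have := dist_triangle_left (t : ℂ) z (w z)
      linarith
  obtain ⟨η, hη, h4⟩ := Metric.eventually_nhds_iff_ball.1 h3
  have hball : ∀ x ∈ ball (t : ℂ) ε, ‖x‖ < ρ := fun x hx =>
    mem_ball_zero_iff.1 (hsub (h1 t ht (ball_subset_closedBall hx)))
  have h5 : ∀ b ∈ ball a η, ∃ s : ℝ, |s - t| < ε ∧ gg F b (s : ℂ) = 0 ∧
      ∀ y ∈ ball (t : ℂ) ε, gg F b y = 0 → y = (s : ℂ) := by
    intro b hb
    obtain ⟨hbP, x, hx, hx0, hxu⟩ := h4 b hb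
    have h6 : conj x = x := by
      refine hxu _ ?_ ?_
      · rw [mem_ball] at hx ⊢
        rw [← Complex.conj_ofReal t, Complex.dist_conj_conj]
        exact hx
      · rw [gg_conj hF hbP (hre b hbP) (hball x hx), hx0, map_zero]
    have h7 : (x.re : ℂ) = x := Complex.conj_eq_iff_re.1 h6
    refine ⟨x.re, ?_, by rw [h7]; exact hx0, fun y hy hy0 => by rw [h7]; exact hxu y hy hy0⟩
    rw [← h7, mem_ball, Complex.dist_eq, ← Complex.ofReal_sub, Complex.norm_real,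
      Real.norm_eq_abs] at hx
    exact hx
  choose! g hg1 hg2 hg3 using h5
  have hmem : ∀ s : ℝ, |s - t| < ε → (s : ℂ) ∈ ball (t : ℂ) ε := by
    intro s hs
    rw [mem_ball, Complex.dist_eq, ← Complex.ofReal_sub, Complex.norm_real, Real.norm_eq_abs]
    exact hs
  refine ⟨ε, hε, η, hη, g, ?_, ?_, fun b hb => ⟨hg1 b hb, fun t' ht' => ⟨fun h => ?_, ?_⟩⟩⟩
  · -- continuity
    intro a2 ha2
    refine ContinuousAt.continuousWithinAt ?_
    rw [Metric.continuousAt_iff']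
    intro e he
    have h6 : g a2 ∈ ball t ε := by
      rw [mem_ball, Real.dist_eq]
      exact hg1 a2 ha2
    obtain ⟨e', he', h7⟩ := Metric.isOpen_iff.1 isOpen_ball _ h6
    set e2 := min e e' / 2 with he2
    have he2p : 0 < e2 := half_pos (lt_min he he')
    have he2e : e2 < e := by
      have := min_le_left e e'
      have := lt_min he he'
      rw [he2]
      linarith
    have he2e' : e2 < e' := by
      have := min_le_right e e'
      have := lt_min he he'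
      rw [he2]
      linarith
    have h8 : closedBall (g a2 : ℂ) e2 ⊆ ball (t : ℂ) ε := by
      intro x hx
      have h9 : |g a2 - t| + e2 < ε := by
        -- from the real ball
        by_contra hcon
        push Not at hcon
        rcases le_total t (g a2) with h10 | h10
        · have h11 : g a2 + e2 ∈ ball (g a2) e' := by
            rw [mem_ball, Real.dist_eq]
            rw [show g a2 + e2 - g a2 = e2 by ring, abs_of_pos he2p]
            exact he2e'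
          have h12 := h7 h11
          rw [mem_ball, Real.dist_eq, abs_of_nonneg (by linarith)] at h12
          rw [abs_of_nonneg (by linarith)] at hcon
          linarith
        · have h11 : g a2 - e2 ∈ ball (g a2) e' := by
            rw [mem_ball, Real.dist_eq]
            rw [show g a2 - e2 - g a2 = -e2 by ring, abs_neg, abs_of_pos he2p]
            exact he2e'
          have h12 := h7 h11
          rw [mem_ball, Real.dist_eq, abs_of_nonpos (by linarith)] at h12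
          rw [abs_of_nonpos (by linarith)] at hcon
          linarith
      rw [mem_closedBall] at hx
      rw [mem_ball]
      have h13 := dist_triangle x (g a2 : ℂ) (t : ℂ)
      have h14 : dist (g a2 : ℂ) (t : ℂ) = |g a2 - t| := by
        rw [Complex.dist_eq, ← Complex.ofReal_sub, Complex.norm_real, Real.norm_eq_abs]
      rw [h14] at h13
      linarith
    have ha2P : a2 ∈ Pa ρ := (h4 a2 ha2).1
    have h9 := prs' hP hF ha2P he2p
      (h8.trans fun x hx => mem_ball_zero_iff.2 (hball x hx)) (hg2 a2 ha2) (fun x hx h0 => by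
        have h10 := hg3 a2 ha2 x (h8 (sphere_subset_closedBall hx)) h0
        rw [h10, mem_sphere, dist_self] at hx
        exact he2p.ne hx)
    filter_upwards [h9, isOpen_ball.mem_nhds ha2] with b hb1 hb2
    obtain ⟨x, hx, hx0⟩ := hb1
    have h10 := hg3 b hb2 x (h8 (ball_subset_closedBall hx)) hx0
    rw [h10, mem_ball, Complex.dist_eq, ← Complex.ofReal_sub, Complex.norm_real,
      Real.norm_eq_abs] at hx
    rw [Real.dist_eq]
    linarith
  · have h6 := hg3 a (mem_ball_self hη) t (mem_ball_self hε) ht.2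
    exact (Complex.ofReal_injective h6).symm
  · exact Complex.ofReal_injective (hg3 b hb _ (hmem t' ht') h)
  · rintro rfl
    exact hg2 b hb

theorem rlz (hP : T_PRS) : T_RLZ := by
  intro F ρ c R a1 r hF hR hr hc h1 h2 hre hne hn
  have hball : ball a1 r ⊆ Pa ρ := ball_sub_Pa h1 h2
  have ha1 : a1 ∈ Pa ρ := hball (mem_ball_self hr)
  have hre' : ∀ b ∈ Pa ρ, ∀ t : ℝ, |t| < ρ → (gg F b (t : ℂ)).im = 0 :=
    fun b hb t ht => hre b t hb.1 hb.2 ht
  have hn' : ∀ᶠ b in 𝓝 a1, (Zr F c R b).Finite ∧ (Zr F c R b).ncard = (Zr F c R a1).ncard := by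
    filter_upwards [ball_mem_nhds a1 hr] with b hb
    exact hn b hb
  have hsub : ball (c : ℂ) R ⊆ ball 0 ρ := disc_sub hc.le
  refine ⟨re_zeros hF ha1 (hre' a1 ha1) hc.le (hn a1 (mem_ball_self hr)).1, ?_⟩
  intro t ht h0
  have h3 : (t : ℂ) ∈ Zr F c R a1 := by
    refine ⟨?_, h0⟩
    rw [mem_ball, Complex.dist_eq, ← Complex.ofReal_sub, Complex.norm_real, Real.norm_eq_abs,
      abs_lt]
    constructor
    · linarith [ht.1]
    · linarith [ht.2]
  exact graph hP hF ha1 hre' hsub hn' h3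

/-! ## PBX -/

/-- a zero-free radius -/
lemma exists_radius {ρ : ℝ} (hρ : 0 < ρ) (g : ℂ → ℂ) (hg : AnalyticOnNhd ℂ g (ball 0 ρ))
    (hne : ∃ ζ : ℂ, ‖ζ‖ < ρ ∧ g ζ ≠ 0) {ε : ℝ} (hε : 0 < ε) :
    ∃ h > 0, h < ε ∧ h < ρ ∧ ∀ z ∈ sphere (0 : ℂ) h, g z ≠ 0 := by
  set h0 := min ε ρ / 2 with hh0
  have hh0p : 0 < h0 := half_pos (lt_min hε hρ)
  have hh0ρ : h0 < ρ := by
    have := min_le_right ε ρ
    have := lt_min hε hρ
    rw [hh0]; linarith
  have hh0ε : h0 < ε := by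
    have := min_le_left ε ρ
    have := lt_min hε hρ
    rw [hh0]; linarith
  -- finitely many zeros
  have hfin : {z | z ∈ closedBall (0 : ℂ) h0 ∧ g z = 0}.Finite := by
    by_contra hinf
    obtain ⟨z0, hz0, hacc⟩ := Set.Infinite.exists_accPt_of_subset_isCompact
      (K := closedBall (0 : ℂ) h0) hinf (isCompact_closedBall 0 h0) fun z hz => hz.1
    have h1 : ∃ᶠ z in 𝓝[≠] z0, g z = 0 := by
      rw [accPt_iff_frequently_nhdsNE] at hacc
      exact hacc.mono fun z hz => hz.2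
    have h2 := hg.eqOn_zero_of_preconnected_of_frequently_eq_zero
      (convex_ball 0 ρ).isPreconnected (closedBall_subset_ball hh0ρ hz0) h1
    obtain ⟨ζ, hζ, hζ0⟩ := hne
    exact hζ0 (h2 (mem_ball_zero_iff.2 hζ))
  -- avoid the moduli
  have hfin2 : ((fun z : ℂ => ‖z‖) '' {z | z ∈ closedBall (0 : ℂ) h0 ∧ g z = 0}).Finite :=
    hfin.image _
  obtain ⟨h, hh, hh2⟩ := (Ioo_infinite hh0p).exists_notMem_finite hfin2
  refine ⟨h, hh.1, hh.2.trans hh0ε, hh.2.trans hh0ρ, fun z hz h0' => hh2 ⟨z, ⟨?_, h0'⟩, ?_⟩⟩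
  · rw [mem_closedBall_zero_iff]
    rw [mem_sphere_zero_iff_norm] at hz
    rw [hz]
    exact hh.2.le
  · rw [mem_sphere_zero_iff_norm] at hz
    exact hz

lemma ball_eq_Sq (r : ℝ) : ball (0 : ℝ × ℝ) r = Sq r := by
  ext a
  rw [mem_ball, Prod.dist_eq, max_lt_iff, Real.dist_eq, Real.dist_eq]
  simp [Sq]

/-- points of the circle with diameter `[-h, s]` determine `s` -/
lemma circle_unique {h s s' : ℝ} {z : ℂ} (hz : z ≠ (-h : ℝ))
    (h1 : z ∈ sphere (((s - h) / 2 : ℝ) : ℂ) ((s + h) / 2))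
    (h2 : z ∈ sphere (((s' - h) / 2 : ℝ) : ℂ) ((s' + h) / 2)) : s = s' := by
  rw [mem_sphere, Complex.dist_eq] at h1 h2
  have e1 : (z.re - (s - h) / 2) ^ 2 + z.im ^ 2 = ((s + h) / 2) ^ 2 := by
    rw [← h1, Complex.sq_norm, Complex.normSq_apply]
    simp only [Complex.sub_re, Complex.ofReal_re, Complex.sub_im, Complex.ofReal_im, sub_zero]
    ring
  have e2 : (z.re - (s' - h) / 2) ^ 2 + z.im ^ 2 = ((s' + h) / 2) ^ 2 := by
    rw [← h2, Complex.sq_norm, Complex.normSq_apply]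
    simp only [Complex.sub_re, Complex.ofReal_re, Complex.sub_im, Complex.ofReal_im, sub_zero]
    ring
  have e3 : (s - s') * (z.re + h) = 0 := by nlinarith
  rcases mul_eq_zero.1 e3 with e4 | e4
  · linarith
  · exfalso
    have e5 : z.re = -h := by linarith
    rw [e5] at e1
    have e6 : z.im ^ 2 = 0 := by nlinarith
    have e7 : z.im = 0 := by simpa using e6
    exact hz (Complex.ext (by rw [e5]; simp) (by rw [e7]; simp))

lemma small_disc {h s : ℝ} (hs : s ∈ Ioo (-h) h) :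
    closedBall (((s - h) / 2 : ℝ) : ℂ) ((s + h) / 2) ⊆ closedBall (0 : ℂ) h ∧
      ball (((s - h) / 2 : ℝ) : ℂ) ((s + h) / 2) ⊆ ball (0 : ℂ) h := by
  have key : ∀ z : ℂ, ‖z‖ ≤ dist z (((s - h) / 2 : ℝ) : ℂ) + (h - s) / 2 := by
    intro z
    have h1 : ‖z‖ ≤ ‖z - (((s - h) / 2 : ℝ) : ℂ)‖ + ‖(((s - h) / 2 : ℝ) : ℂ)‖ := by
      simpa using norm_add_le (z - (((s - h) / 2 : ℝ) : ℂ)) (((s - h) / 2 : ℝ) : ℂ)
    rw [Complex.norm_real, Real.norm_eq_abs, abs_of_nonpos (by linarith [hs.2])] at h1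
    rw [Complex.dist_eq]
    linarith
  constructor
  · intro z hz
    rw [mem_closedBall] at hz
    rw [mem_closedBall_zero_iff]
    linarith [key z]
  · intro z hz
    rw [mem_ball] at hz
    rw [mem_ball_zero_iff]
    linarith [key z]

/-- parity below a point off the zero set -/
lemma par_aux (hD : T_DIS) (hP : T_PRS) {ρ : ℝ} {F : C3 → ℂ} (hF : GH (ball 0 ρ) F)
    (hre : ∀ b ∈ Pa ρ, ∀ t : ℝ, |t| < ρ → (gg F b (t : ℂ)).im = 0) {h : ℝ} (hh : 0 < h)
    (hhρ : h < ρ) {A : Set (ℝ × ℝ)} (hA : IsOpen A) {d : ℕ}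
    {a : ℝ × ℝ} (ha : a ∈ Pa ρ)
    (hfa : (Zr F 0 h a).Finite) (hcirc : ∀ z ∈ sphere (0 : ℂ) h, gg F a z ≠ 0)
    (hAn : ∀ b ∈ A, b ∈ Pa ρ ∧ (Zr F 0 h b).Finite ∧ (Zr F 0 h b).ncard = d)
    {t : ℝ} (ht : t ∈ Ioo (-h) h) (h0 : gg F a (t : ℂ) ≠ 0) :
    ∃ ε > 0, ∃ c : ℕ, ∀ b ∈ A ∩ ball a ε,
      {t' : ℝ | t' ∈ Ioo (-h) t ∧ gg F b (t' : ℂ) = 0}.ncard % 2 = c % 2 := by
  -- an interval free of zeros
  have h1 : ∀ᶠ q : (ℝ × ℝ) × ℝ in 𝓝 (a, t), gg F q.1 (q.2 : ℂ) ≠ 0 := by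
    have h2 : ContinuousAt (fun q : (ℝ × ℝ) × ℂ => gg F q.1 q.2) (a, (t : ℂ)) := by
      refine (gg_cont hF).continuousAt ((dom_open ρ).mem_nhds ⟨ha, ?_⟩)
      rw [Complex.norm_real, Real.norm_eq_abs]
      exact (abs_lt.2 ht).trans hhρ
    have h3 : ContinuousAt (fun q : (ℝ × ℝ) × ℝ => gg F q.1 (q.2 : ℂ)) (a, t) :=
      ContinuousAt.comp (g := fun q : (ℝ × ℝ) × ℂ => gg F q.1 q.2)
        (f := fun q : (ℝ × ℝ) × ℝ => (q.1, (q.2 : ℂ))) (x := (a, t)) h2
        (by fun_prop)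
    exact h3.eventually_ne h0
  obtain ⟨δ, hδ, h2⟩ := Metric.eventually_nhds_iff_ball.1 h1
  have h3 : ∀ b ∈ ball a δ, ∀ s : ℝ, |s - t| < δ → gg F b (s : ℂ) ≠ 0 := by
    intro b hb s hs
    refine h2 (b, s) ?_
    rw [mem_ball, Prod.dist_eq, max_lt_iff]
    exact ⟨hb, by rw [Real.dist_eq]; exact hs⟩
  -- choice of the circle
  set B : Set ℝ := {s | ∃ z ∈ Zr F 0 h a,
    z ∈ sphere (((s - h) / 2 : ℝ) : ℂ) ((s + h) / 2)} with hB
  have hmh : gg F a ((-h : ℝ) : ℂ) ≠ 0 := by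
    refine hcirc _ ?_
    rw [mem_sphere_zero_iff_norm, Complex.norm_real, Real.norm_eq_abs, abs_neg, abs_of_pos hh]
  have hBf : B.Finite := by
    have h4 : B ⊆ ⋃ z ∈ Zr F 0 h a, {s | z ∈ sphere (((s - h) / 2 : ℝ) : ℂ) ((s + h) / 2)} := by
      intro s hs
      obtain ⟨z, hz, hz2⟩ := hs
      exact mem_iUnion₂.2 ⟨z, hz, hz2⟩
    refine (hfa.biUnion fun z hz => ?_).subset h4
    refine Set.Subsingleton.finite fun s hs s' hs' => ?_
    refine circle_unique ?_ hs hs'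
    rintro rfl
    exact hmh hz.2
  have hJ : (Ioo (t - min δ (t + h)) t).Infinite := Ioo_infinite (by
    have : 0 < min δ (t + h) := lt_min hδ (by linarith [ht.1])
    linarith)
  obtain ⟨s, hs, hsB⟩ := hJ.exists_notMem_finite hBf
  have hs1 : |s - t| < δ := by
    rw [abs_of_neg (by linarith [hs.2])]
    have := min_le_left δ (t + h)
    linarith [hs.1]
  have hs2 : s ∈ Ioo (-h) h := by
    have := min_le_right δ (t + h)
    exact ⟨by linarith [hs.1], hs.2.trans ht.2⟩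
  obtain ⟨hd1, hd2⟩ := small_disc hs2
  set c : ℝ := (s - h) / 2 with hc
  set R : ℝ := (s + h) / 2 with hR
  have hRp : 0 < R := by rw [hR]; linarith [hs2.1]
  have hcR : |c| + R = h := by
    rw [hc, hR, abs_of_nonpos (by linarith [hs2.2])]
    ring
  -- the circle is zero free at `a`
  have hne : ∀ z ∈ sphere (c : ℂ) R, gg F a z ≠ 0 := by
    intro z hz h4
    have h5 : ‖z‖ ≤ h := mem_closedBall_zero_iff.1 (hd1 (sphere_subset_closedBall hz))
    rcases h5.lt_or_eq with h6 | h6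
    · exact hsB ⟨z, ⟨mem_ball_zero_iff.2 h6, h4⟩, hz⟩
    · exact hcirc z (mem_sphere_zero_iff_norm.2 h6) h4
  obtain ⟨r, hr, hr1, hr2, htube⟩ := tube hF ha (isCompact_sphere (c : ℂ) R)
    (fun z hz => lt_of_le_of_lt
      (mem_closedBall_zero_iff.1 (hd1 (sphere_subset_closedBall hz))) hhρ) hne
  obtain ⟨d', A', hA'o, hA's, hA'd, hfin', hd'⟩ := hD F ρ c R a r hF hRp hr (by rw [hcR]; exact hhρ)
    hr1 hr2 htube
  have hbne : ∀ b ∈ ball a r, ∀ z ∈ sphere (c : ℂ) R, gg F b z ≠ 0 := by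
    intro b hb z hz
    rw [mem_ball, Prod.dist_eq, max_lt_iff, Real.dist_eq, Real.dist_eq] at hb
    refine htube ((b.1 : ℂ), (b.2 : ℂ)) ?_ ?_ z hz
    · rw [← Complex.ofReal_sub, Complex.norm_real, Real.norm_eq_abs]; exact hb.1
    · rw [← Complex.ofReal_sub, Complex.norm_real, Real.norm_eq_abs]; exact hb.2
  refine ⟨min δ r, lt_min hδ hr, d', fun b hb => ?_⟩
  obtain ⟨hbA, hbb⟩ := hb
  have hbδ : b ∈ ball a δ := ball_subset_ball (min_le_left _ _) hbb
  have hbr : b ∈ ball a r := ball_subset_ball (min_le_right _ _) hbb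
  obtain ⟨hbP, hbf, hbd⟩ := hAn b hbA
  -- the number of zeros in the small disc is locally constant near `b`
  have h4 : ∀ᶠ b' in 𝓝 b, (Zr F 0 h b').Finite ∧ (Zr F 0 h b').ncard = (Zr F 0 h b).ncard := by
    filter_upwards [hA.mem_nhds hbA] with b' hb'
    exact ⟨(hAn b' hb').2.1, by rw [(hAn b' hb').2.2, hbd]⟩
  have hsub : ball (0 : ℂ) h ⊆ ball 0 ρ := ball_subset_ball hhρ.le
  have h5 := const_small hP hF hbP hsub h4 hd2 (hbne b hbr)
  -- compare with a point of `A'`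
  have h6 : (Zr F c R b).ncard = d' := by
    have h7 : {b' | (Zr F c R b').ncard = (Zr F c R b).ncard} ∈ 𝓝 b := h5
    have h8 : b ∈ closure A' := hA'd hbr
    obtain ⟨b', hb'1, hb'2⟩ := mem_closure_iff_nhds.1 h8 _ h7
    rw [← hb'1]
    exact hd' b' hb'2
  have h9 := re_zeros hF hbP (hre b hbP) (c := c) (R := R) (by rw [hcR]; exact hhρ.le)
    ((hfin' b hbr).1)
  rw [h6] at h9
  rw [← h9]
  congr 2
  ext t'
  constructor
  · rintro ⟨h10, h11⟩
    refine ⟨⟨by rw [hc, hR]; linarith [h10.1], ?_⟩, h11⟩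
    by_contra h12
    push Not at h12
    refine h3 b hbδ t' ?_ h11
    rw [abs_of_neg (by linarith [h10.2])]
    have h13 : s ≤ t' := by rw [hc, hR] at h12; linarith
    rw [abs_of_neg (by linarith [hs.2])] at hs1
    linarith
  · rintro ⟨h10, h11⟩
    refine ⟨⟨?_, ?_⟩, h11⟩
    · have := h10.1
      rw [hc, hR] at this
      linarith
    · have := h10.2
      rw [hc, hR] at this
      linarith [hs.2]

theorem pbx (hC : T_COO) (hD : T_DIS) (hP : T_PRS) : T_PBX := by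
  intro Y p hY ε hε
  obtain ⟨T, ρ, F, hρ, hF, hre, hζ⟩ := hC Y p hY
  have h00 : (0 : ℝ × ℝ) ∈ Pa ρ := by
    constructor <;> simpa using hρ
  have hre' : ∀ b ∈ Pa ρ, ∀ t : ℝ, |t| < ρ → (gg F b (t : ℂ)).im = 0 :=
    fun b hb t ht => (hre b t hb.1 hb.2 ht).1
  have hY' : ∀ b ∈ Pa ρ, ∀ t : ℝ, |t| < ρ → (pt T p b t ∈ Y ↔ gg F b (t : ℂ) = 0) :=
    fun b hb t ht => (hre b t hb.1 hb.2 ht).2
  obtain ⟨h, hh, hhε, hhρ, hsph⟩ := exists_radius hρ (gg F (0 : ℝ × ℝ)) (gg_an hF h00) (by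
    obtain ⟨ζ, h1, h2⟩ := hζ
    exact ⟨ζ, h1, by simpa [gg] using h2⟩) hε
  obtain ⟨r0, hr0, hr01, hr02, htube⟩ := tube hF h00 (isCompact_sphere (0 : ℂ) h)
    (fun z hz => by rw [mem_sphere_zero_iff_norm.1 hz]; exact hhρ) hsph
  set r := min r0 (ε / 2) with hr
  have hrp : 0 < r := lt_min hr0 (by linarith)
  have hrε : r < ε := lt_of_le_of_lt (min_le_right _ _) (by linarith)
  have hr1 : |(0 : ℝ × ℝ).1| + r ≤ ρ := by
    have := min_le_left r0 (ε / 2)
    linarith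
  have hr2 : |(0 : ℝ × ℝ).2| + r ≤ ρ := by
    have := min_le_left r0 (ε / 2)
    linarith
  have htube' : ∀ a : ℂ × ℂ, ‖a.1 - (0 : ℝ × ℝ).1‖ < r → ‖a.2 - (0 : ℝ × ℝ).2‖ < r →
      ∀ z ∈ sphere ((0 : ℝ) : ℂ) h, F ![a.1, a.2, z] ≠ 0 := by
    intro a h1 h2 z hz
    rw [Complex.ofReal_zero] at hz
    exact htube a (lt_of_lt_of_le h1 (min_le_left _ _)) (lt_of_lt_of_le h2 (min_le_left _ _)) z hz
  obtain ⟨d, A, hAo, hAs, hAd, hfin, hAd2⟩ := hD F ρ 0 h 0 r hF hh hrp (by simpa using hhρ)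
    hr1 hr2 htube'
  have hballP : ball (0 : ℝ × ℝ) r ⊆ Pa ρ := ball_sub_Pa hr1 hr2
  have hcirc : ∀ a ∈ ball (0 : ℝ × ℝ) r, ∀ z ∈ sphere (0 : ℂ) h, gg F a z ≠ 0 := by
    intro a ha z hz
    rw [mem_ball, Prod.dist_eq, max_lt_iff, Real.dist_eq, Real.dist_eq] at ha
    refine htube' ((a.1 : ℂ), (a.2 : ℂ)) ?_ ?_ z (by rw [Complex.ofReal_zero]; exact hz)
    · rw [← Complex.ofReal_sub, Complex.norm_real, Real.norm_eq_abs]; exact ha.1
    · rw [← Complex.ofReal_sub, Complex.norm_real, Real.norm_eq_abs]; exact ha.2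
  have hZf : ∀ a ∈ ball (0 : ℝ × ℝ) r, (Zr F 0 h a).Finite := by
    intro a ha
    have := (hfin a ha).1
    rw [Complex.ofReal_zero] at this
    exact this
  have hZn : ∀ a ∈ A, (Zr F 0 h a).ncard = d := by
    intro a ha
    have := hAd2 a ha
    unfold nz at this
    rw [Complex.ofReal_zero] at this
    exact this
  have habs : ∀ t ∈ Ioo (-h) h, |t| < ρ := fun t ht => (abs_lt.2 ht).trans hhρ
  refine ⟨T, r, h, A, hrε, hhε, ?_⟩
  refine { rpos := hrp, hpos := hh, Aop := hAo, Asub := by rw [← ball_eq_Sq]; exact hAs,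
           Adense := by rw [← ball_eq_Sq]; exact hAd, closed := ?_, fin := ?_, loc := ?_,
           par := ?_ }
  · intro a ha t ht hnot
    rw [← ball_eq_Sq] at ha
    have haP := hballP ha
    rw [hY' a haP t (habs t ht)] at hnot
    have h2 : ContinuousAt (fun q : (ℝ × ℝ) × ℂ => gg F q.1 q.2) (a, (t : ℂ)) := by
      refine (gg_cont hF).continuousAt ((dom_open ρ).mem_nhds ⟨haP, ?_⟩)
      rw [Complex.norm_real, Real.norm_eq_abs]
      exact habs t ht
    have h3 : ContinuousAt (fun q : (ℝ × ℝ) × ℝ => gg F q.1 (q.2 : ℂ)) (a, t) :=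
      ContinuousAt.comp (g := fun q : (ℝ × ℝ) × ℂ => gg F q.1 q.2)
        (f := fun q : (ℝ × ℝ) × ℝ => (q.1, (q.2 : ℂ))) (x := (a, t)) h2
        (by fun_prop)
    have h4 : ∀ᶠ q : (ℝ × ℝ) × ℝ in 𝓝 (a, t), q.1 ∈ Pa ρ := by
      exact continuous_fst.continuousAt.eventually_mem ((Pa_open ρ).mem_nhds haP)
    have h5 : ∀ᶠ q : (ℝ × ℝ) × ℝ in 𝓝 (a, t), q.2 ∈ Ioo (-h) h :=
      continuous_snd.continuousAt.eventually_mem (isOpen_Ioo.mem_nhds ht)
    filter_upwards [h3.eventually_ne hnot, h4, h5] with q h6 h7 h8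
    rw [hY' q.1 h7 q.2 (habs q.2 h8)]
    exact h6
  · intro a ha
    rw [← ball_eq_Sq] at ha
    have haP := hballP ha
    have h1 : ((fun t : ℝ => (t : ℂ)) '' {t | t ∈ Ioo (-h) h ∧ pt T p a t ∈ Y}).Finite := by
      refine (hZf a ha).subset ?_
      rintro _ ⟨t, ht, rfl⟩
      refine ⟨?_, (hY' a haP t (habs t ht.1)).1 ht.2⟩
      rw [mem_ball_zero_iff, Complex.norm_real, Real.norm_eq_abs]
      exact abs_lt.2 ht.1
    exact h1.of_finite_image Complex.ofReal_injective.injOn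
  · intro a ha t ht hmem
    have haB := hAs ha
    have haP := hballP haB
    have hn : ∀ᶠ b in 𝓝 a, (Zr F 0 h b).Finite ∧ (Zr F 0 h b).ncard = (Zr F 0 h a).ncard := by
      filter_upwards [hAo.mem_nhds ha] with b hb
      exact ⟨hZf b (hAs hb), by rw [hZn b hb, hZn a ha]⟩
    have htZ : (t : ℂ) ∈ Zr F 0 h a := by
      refine ⟨?_, (hY' a haP t (habs t ht)).1 hmem⟩
      rw [mem_ball_zero_iff, Complex.norm_real, Real.norm_eq_abs]
      exact abs_lt.2 ht
    obtain ⟨e, he, η, hη, g, hg1, hg2, hg3⟩ := graph hP hF haP hre' (ball_subset_ball hhρ.le) hn htZ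
    -- shrink: the height must stay in the range, the parameters in `Pa`
    set e' := min e (ρ - |t|) with he'
    have he'p : 0 < e' := lt_min he (by linarith [habs t ht])
    have h1 : ∀ᶠ b in 𝓝 a, |g b - t| < e' ∧ b ∈ Pa ρ ∧ b ∈ ball a η := by
      have h2 : ContinuousAt g a := hg1.continuousAt (ball_mem_nhds a hη)
      have h3 : ∀ᶠ b in 𝓝 a, dist (g b) (g a) < e' := (Metric.continuousAt_iff'.1 h2) e' he'p
      filter_upwards [h3, (Pa_open ρ).mem_nhds haP, ball_mem_nhds a hη] with b hb1 hb2 hb3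
      rw [hg2, Real.dist_eq] at hb1
      exact ⟨hb1, hb2, hb3⟩
    obtain ⟨η', hη', h2⟩ := Metric.eventually_nhds_iff_ball.1 h1
    refine ⟨e', he'p, η', hη', g, hg1.mono fun b hb => (h2 b hb).2.2, hg2, fun b hb => ?_⟩
    obtain ⟨h3, h4, h5⟩ := h2 b hb
    refine ⟨h3, fun t' ht' => ?_⟩
    have h6 : |t'| < ρ := by
      have h7 := abs_sub_abs_le_abs_sub t' t
      have h8 := min_le_right e (ρ - |t|)
      linarith
    rw [hY' b h4 t' h6]
    exact (hg3 b h5).2 t' (lt_of_lt_of_le ht' (min_le_left _ _))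
  · intro a ha t ht hnot
    rw [← ball_eq_Sq] at ha
    have haP := hballP ha
    rw [hY' a haP t (habs t ht)] at hnot
    obtain ⟨e, he, c, hc⟩ := par_aux hD hP hF hre' hh hhρ hAo (d := d) haP (hZf a ha)
      (hcirc a ha) (fun b hb => ⟨hballP (hAs hb), hZf b (hAs hb), hZn b hb⟩) ht hnot
    refine ⟨e, he, c, fun b hb => ?_⟩
    rw [← hc b hb]
    congr 2
    ext t'
    constructor
    · rintro ⟨h1, h2⟩
      exact ⟨h1, (hY' b (hballP (hAs hb.1)) t' (habs t' ⟨h1.1, h1.2.trans ht.2⟩)).1 h2⟩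
    · rintro ⟨h1, h2⟩
      exact ⟨h1, (hY' b (hballP (hAs hb.1)) t' (habs t' ⟨h1.1, h1.2.trans ht.2⟩)).2 h2⟩

end Pool.Agent.H4.IC
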